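import Pool.Agent.H56.GS.Cat
set_option autoImplicit false

/-!
# H56/CX/Main: relations reducible with a Cohen parameter to a countable union of smooth relations
-/

namespace Pool.Agent.H56.CX

open Set Topology TopologicalSpace Filter Pool.Agent.H56.GS

variable {X P Y : Type} [MeasurableSpace X] [TopologicalSpace P] [MeasurableSpace P] [BorelSpace P]
  [MeasurableSpace Y]

open Classical in
/-- the code of the name `f` restricted to the open set `N k` -/
noncomputable def cd (b : Bas P) (h : Y → ℝ) (k : ℕ) (f : P → Y) : ℕ × ℚ → Bool :=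
  fun t => decide (b.N t.1 ⊆ b.N k ∧ As (b.N t.1) fun q => (t.2 : ℝ) < h (f q))

theorem cd_iff [BaireSpace P] (b : Bas P) {h : Y → ℝ} (hh : Measurable h) (hi : Function.Injective h) (k : ℕ)
    {f f' : P → Y} (hf : Measurable f) (hf' : Measurable f') :
    cd b h k f = cd b h k f' ↔ As (b.N k) fun q => f q = f' q := by
  have hmf : ∀ a : ℚ, MeasurableSet {q | (a : ℝ) < h (f q)} := fun a =>
    measurableSet_lt measurable_const (hh.comp hf)
  have hmf' : ∀ a : ℚ, MeasurableSet {q | (a : ℝ) < h (f' q)} := fun a =>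
    measurableSet_lt measurable_const (hh.comp hf')
  constructor
  · intro hc
    have key : ∀ t : ℕ × ℚ, b.N t.1 ⊆ b.N k →
        ((As (b.N t.1) fun q => (t.2 : ℝ) < h (f q)) ↔ As (b.N t.1) fun q => (t.2 : ℝ) < h (f' q)) := by
      intro t ht
      have h1 := congrFun hc t
      unfold cd at h1
      rw [decide_eq_decide] at h1
      constructor
      · intro h2
        exact (h1.1 ⟨ht, h2⟩).2
      · intro h2
        exact (h1.2 ⟨ht, h2⟩).2
    have h1 : As (b.N k) fun q => ∀ a : ℚ, ((a : ℝ) < h (f q) ↔ (a : ℝ) < h (f' q)) := by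
      refine as_all fun a => ?_
      by_contra hcon
      have hm : MeasurableSet {q | ¬ ((a : ℝ) < h (f q) ↔ (a : ℝ) < h (f' q))} := by
        have e : {q | ¬ ((a : ℝ) < h (f q) ↔ (a : ℝ) < h (f' q))} =
            ({q | (a : ℝ) < h (f q)} ∩ {q | (a : ℝ) < h (f' q)}ᶜ) ∪
              ({q | (a : ℝ) < h (f q)}ᶜ ∩ {q | (a : ℝ) < h (f' q)}) := by
          ext q
          simp only [mem_setOf_eq, mem_union, mem_inter_iff, mem_compl_iff]
          tauto
        rw [e]
        exact ((hmf a).inter (hmf' a).compl).union ((hmf a).compl.inter (hmf' a))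
      obtain ⟨m, hmk, hm1⟩ := as_loc b (b.op k) (A := fun q => ¬ ((a : ℝ) < h (f q) ↔ (a : ℝ) < h (f' q))) hm
        (fun h2 => hcon (h2.mono Subset.rfl fun q _ h3 => by
          by_contra h4
          exact h3 h4))
      by_cases hC : As (b.N m) fun q => ¬ ((a : ℝ) < h (f q))
      · have h2 : As (b.N m) fun q => (a : ℝ) < h (f' q) :=
          (hm1.and hC).mono Subset.rfl fun q _ h3 => by
            by_contra h4
            exact h3.1 ⟨fun h5 => absurd h5 h3.2, fun h5 => absurd h5 h4⟩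
        have h3 := (key (m, a) hmk).2 h2
        exact as_false b ((h3.and hC).mono Subset.rfl fun q _ h4 => h4.2 h4.1)
      · obtain ⟨m', hm', h2⟩ := as_loc b (b.op m) (A := fun q => (a : ℝ) < h (f q)) (hmf a) hC
        have h3 := (key (m', a) (hm'.trans hmk)).1 h2
        exact as_false b (((hm1.mono hm' fun q _ h4 => h4).and (h2.and h3)).mono Subset.rfl
          fun q _ h4 => h4.1 ⟨fun _ => h4.2.2, fun _ => h4.2.1⟩)
    refine h1.mono Subset.rfl fun q _ h2 => hi ?_
    by_contra h3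
    rcases lt_or_gt_of_ne h3 with h4 | h4
    · obtain ⟨a, ha1, ha2⟩ := exists_rat_btwn h4
      exact absurd ((h2 a).2 ha2) (not_lt.2 ha1.le)
    · obtain ⟨a, ha1, ha2⟩ := exists_rat_btwn h4
      exact absurd ((h2 a).1 ha2) (not_lt.2 ha1.le)
  · intro hA
    funext t
    unfold cd
    rw [decide_eq_decide]
    constructor
    · rintro ⟨ht, h1⟩
      refine ⟨ht, ((hA.mono ht fun q _ h2 => h2).and h1).mono Subset.rfl fun q _ h2 => ?_⟩
      rw [← h2.1]
      exact h2.2
    · rintro ⟨ht, h1⟩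
      refine ⟨ht, ((hA.mono ht fun q _ h2 => h2).and h1).mono Subset.rfl fun q _ h2 => ?_⟩
      rw [h2.1]
      exact h2.2

theorem cd_meas [BaireSpace P] (b : Bas P) {h : Y → ℝ} (hh : Measurable h) (k : ℕ) {φ : X → P → Y}
    (hφ : Measurable fun p : X × P => φ p.1 p.2) : Measurable fun x => cd b h k (φ x) := by
  refine measurable_pi_iff.2 fun t => ?_
  have hm : MeasurableSet {x | b.N t.1 ⊆ b.N k ∧ As (b.N t.1) fun q => (t.2 : ℝ) < h (φ x q)} := by
    refine (MeasurableSet.const _).inter ?_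
    exact cq b (A := fun x q => (t.2 : ℝ) < h (φ x q)) (measurableSet_lt measurable_const (hh.comp hφ)) t.1
  refine measurable_to_bool ?_
  have e : (fun x => cd b h k (φ x) t) ⁻¹' {true} =
      {x | b.N t.1 ⊆ b.N k ∧ As (b.N t.1) fun q => (t.2 : ℝ) < h (φ x q)} := by
    ext x
    simp only [mem_preimage, mem_singleton_iff, cd, decide_eq_true_eq, mem_setOf_eq]
  rw [e]
  exact hm

theorem main [PolishSpace P] [Nonempty P] (F : Setoid X) (s : ℕ → Y → ℝ) (hs : ∀ k, Measurable (s k))
    (ψ : X → P → Y) (hψ : Measurable fun p : X × P => ψ p.1 p.2)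
    (h1 : ∀ x x', F x x' → ∀ᶠ q in residual P, ∃ k, s k (ψ x q) = s k (ψ x' q))
    (h2 : ∀ x x', ¬ F x x' → ∀ᶠ q in residual P, ¬ ∃ k, s k (ψ x q) = s k (ψ x' q)) :
    ∃ r : ℕ → X → ℝ, (∀ j, Measurable (r j)) ∧ ∀ x x', F x x' ↔ ∃ j, r j x = r j x' := by
  obtain ⟨b⟩ := exists_bas P
  obtain ⟨e, he⟩ := MeasureTheory.exists_measurableEmbedding_real (ℕ × ℚ → Bool)
  have hm0 : ∀ j x, Measurable fun q => s j (ψ x q) := fun j x => (hs j).comp (hψ.comp measurable_prodMk_left)
  let u : ℕ → ℕ → X → ℝ := fun k j x => e (cd b (id : ℝ → ℝ) k fun q => s j (ψ x q))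
  have hu : ∀ k j, Measurable (u k j) := fun k j =>
    he.measurable.comp (cd_meas b measurable_id k (φ := fun x q => s j (ψ x q)) ((hs j).comp hψ))
  have huu : ∀ k j x x', u k j x = u k j x' ↔ As (b.N k) fun q => s j (ψ x q) = s j (ψ x' q) :=
    fun k j x x' => he.injective.eq_iff.trans
      (cd_iff b measurable_id Function.injective_id k (hm0 j x) (hm0 j x'))
  refine ⟨fun n x => u (Nat.unpair n).1 (Nat.unpair n).2 x, fun n => hu _ _, fun x x' => ?_⟩
  constructor
  · intro hF
    have h3 : ∃ j, ¬ As (b.N 0) fun q => ¬ s j (ψ x q) = s j (ψ x' q) := by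
      by_contra hc
      push Not at hc
      have h4 := as_all hc
      have h5 : As (b.N 0) fun q => ∃ k, s k (ψ x q) = s k (ψ x' q) :=
        mem_of_superset (h1 x x' hF) fun q hq _ => hq
      refine as_false b ((h4.and h5).mono Subset.rfl ?_)
      rintro q _ ⟨h6, k, hk⟩
      exact h6 k hk
    obtain ⟨j, hj⟩ := h3
    have hm : MeasurableSet {q | s j (ψ x q) = s j (ψ x' q)} := measurableSet_eq_fun (hm0 j x) (hm0 j x')
    obtain ⟨m, -, hA⟩ := as_loc b (b.op 0) (A := fun q => s j (ψ x q) = s j (ψ x' q)) hm hj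
    refine ⟨Nat.pair m j, ?_⟩
    simp only [Nat.unpair_pair]
    exact (huu m j x x').2 hA
  · rintro ⟨n, hn⟩
    by_contra hc
    have h3 : As (b.N (Nat.unpair n).1) fun q => ¬ ∃ k, s k (ψ x q) = s k (ψ x' q) :=
      mem_of_superset (h2 x x' hc) fun q hq _ => hq
    exact as_false b ((((huu _ _ x x').1 hn).and h3).mono Subset.rfl fun q _ h4 => h4.2 ⟨_, h4.1⟩)

end Pool.Agent.H56.CX
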